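import Pool.Agent.helper94.SCT.Spec
import Pool.Agent.helper85.BVP.Tau

set_option autoImplicit false

namespace Pool.Agent.SCT

open Finset ArithmeticFunction MeasureTheory
open Pool.Agent.CH (nit eU)
open Pool.Agent.helper78.ED (wg SS)
open Pool.Agent.helper85.BVP (beta trunc Mr Zr tau)

private lemma COF_eU_le (U d : ℕ) : |eU U d| ≤ Real.log d := by
  unfold eU
  rw [mul_apply]
  refine le_trans (abs_sum_le_sum_abs _ _) ?_
  have h1 : ∀ p ∈ d.divisorsAntidiagonal, |trunc Mr U p.1 * trunc vonMangoldt U p.2| ≤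
      vonMangoldt p.2 := by
    intro p _
    rw [abs_mul]
    have ha : |trunc Mr U p.1| ≤ 1 := by
      rw [Pool.Agent.helper85.BVP.trunc_apply]
      split_ifs
      · have := abs_moebius_le_one (n := p.1)
        have e : Mr p.1 = ((moebius p.1 : ℤ) : ℝ) := rfl
        rw [e]
        exact_mod_cast this
      · simp
    have hb : |trunc vonMangoldt U p.2| ≤ vonMangoldt p.2 := by
      rw [Pool.Agent.helper85.BVP.trunc_apply]
      split_ifs
      · rw [abs_of_nonneg vonMangoldt_nonneg]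
      · rw [abs_zero]; exact vonMangoldt_nonneg
    calc |trunc Mr U p.1| * |trunc vonMangoldt U p.2| ≤ 1 * vonMangoldt p.2 :=
          mul_le_mul ha hb (abs_nonneg _) zero_le_one
      _ = vonMangoldt p.2 := one_mul _
  refine le_trans (sum_le_sum h1) ?_
  rw [Nat.sum_divisorsAntidiagonal' (f := fun _ y => vonMangoldt y), vonMangoldt_sum]

private lemma COF_eU_zero (U d : ℕ) (hd : U ^ 2 < d) : eU U d = 0 := by
  unfold eU
  rw [mul_apply]
  apply sum_eq_zero
  intro p hp
  have h1 := (Nat.mem_divisorsAntidiagonal.1 hp).1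
  rw [Pool.Agent.helper85.BVP.trunc_apply, Pool.Agent.helper85.BVP.trunc_apply]
  by_cases ha : p.1 ≤ U
  · by_cases hb : p.2 ≤ U
    · exfalso
      have h2 : p.1 * p.2 ≤ U * U := Nat.mul_le_mul ha hb
      rw [h1] at h2
      have h3 : U ^ 2 = U * U := by ring
      omega
    · rw [if_neg hb, mul_zero]
  · rw [if_neg ha, zero_mul]

private lemma COF_sub (U n : ℕ) : (Mr - trunc Mr U) n = if n ≤ U then 0 else ((moebius n : ℤ) : ℝ) := by
  have e : (Mr - trunc Mr U) n = Mr n - trunc Mr U n := rfl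
  rw [e, Pool.Agent.helper85.BVP.trunc_apply]
  have e2 : Mr n = ((moebius n : ℤ) : ℝ) := rfl
  split_ifs
  · simp
  · rw [sub_zero, e2]

private lemma COF_beta_zero (U k : ℕ) (hk1 : 1 ≤ k) (hk : k ≤ U) : beta U k = 0 := by
  unfold beta
  rw [mul_apply]
  apply sum_eq_zero
  intro p hp
  have h1 := (Nat.mem_divisorsAntidiagonal.1 hp).1
  have h2 : p.1 ≤ U := (Nat.le_of_dvd hk1 (Dvd.intro p.2 h1)).trans hk
  rw [COF_sub, if_pos h2, zero_mul]

private lemma COF_beta_le (U k : ℕ) : |beta U k| ≤ tau k := by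
  unfold beta
  rw [mul_apply]
  refine le_trans (abs_sum_le_sum_abs _ _) ?_
  have h1 : ∀ p ∈ k.divisorsAntidiagonal, |(Mr - trunc Mr U) p.1 * Zr p.2| ≤ 1 := by
    intro p _
    rw [abs_mul]
    have ha : |(Mr - trunc Mr U) p.1| ≤ 1 := by
      rw [COF_sub]
      have := abs_moebius_le_one (n := p.1)
      split_ifs
      · simp
      · exact_mod_cast this
    have hb : |Zr p.2| ≤ 1 := by
      have e : Zr p.2 = ((zeta p.2 : ℕ) : ℝ) := rfl
      rw [e, zeta_apply]
      split_ifs <;> simp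
    calc |(Mr - trunc Mr U) p.1| * |Zr p.2| ≤ 1 * 1 :=
          mul_le_mul ha hb (abs_nonneg _) zero_le_one
      _ = 1 := one_mul _
  refine le_trans (sum_le_sum h1) ?_
  rw [sum_const, nsmul_eq_mul, mul_one]
  have h2 : k.divisorsAntidiagonal.card = k.divisors.card := by
    rw [← Nat.map_div_right_divisors, card_map]
  rw [h2]
  exact le_refl _

private lemma COF_log2 (M : ℕ) (hM : 1 ≤ M) : Real.log ((2 * M : ℕ) : ℝ) ≤ 1 + Real.log M := by
  have h1 : (M : ℝ) ≠ 0 := by
    have : (1 : ℝ) ≤ M := by exact_mod_cast hM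
    linarith
  push_cast
  rw [Real.log_mul (by norm_num) h1]
  have := Real.log_two_lt_d9
  linarith

theorem COF : COF_stmt := by
  refine ⟨16, by norm_num, fun U _ => ⟨fun d _ => COF_eU_le U d, fun d hd => COF_eU_zero U d hd,
    fun k hk1 hk => COF_beta_zero U k hk1 hk, ?_, ?_⟩⟩
  · intro M hM
    have hMr : (1 : ℝ) ≤ M := by exact_mod_cast hM
    have hL0 : 0 ≤ Real.log M := Real.log_nonneg hMr
    have h1 : ∀ m ∈ Ico M (2 * M), vonMangoldt m ^ 2 ≤ (1 + Real.log M) * vonMangoldt m := by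
      intro m hm
      obtain ⟨hm1, hm2⟩ := mem_Ico.1 hm
      have h2 : vonMangoldt m ≤ 1 + Real.log M := by
        refine vonMangoldt_le_log.trans ?_
        refine le_trans ?_ (COF_log2 M hM)
        apply Real.log_le_log
        · have : 0 < m := by omega
          exact_mod_cast this
        · exact_mod_cast hm2.le
      rw [pow_two]
      exact mul_le_mul_of_nonneg_right h2 vonMangoldt_nonneg
    have h3 : ∑ m ∈ Ico M (2 * M), vonMangoldt m ≤ 12 * M := by
      have h4 : ∑ m ∈ Ico M (2 * M), vonMangoldt m ≤ Chebyshev.psi ((2 * M : ℕ) : ℝ) := by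
        unfold Chebyshev.psi
        rw [Nat.floor_natCast]
        apply sum_le_sum_of_subset_of_nonneg
        · intro m hm
          obtain ⟨hm1, hm2⟩ := mem_Ico.1 hm
          exact mem_Ioc.2 ⟨by omega, hm2.le⟩
        · intro m _ _
          exact vonMangoldt_nonneg
      have h5 := Chebyshev.psi_le_const_mul_self (x := ((2 * M : ℕ) : ℝ)) (Nat.cast_nonneg _)
      have h6 : Real.log 4 + 4 ≤ 6 := by
        have e4 : (4 : ℝ) = 2 ^ 2 := by norm_num
        rw [e4, Real.log_pow]
        have := Real.log_two_lt_d9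
        push_cast
        linarith
      push_cast at h5
      have h7 : (Real.log 4 + 4) * (2 * (M : ℝ)) ≤ 6 * (2 * M) :=
        mul_le_mul_of_nonneg_right h6 (by linarith)
      push_cast at h4
      linarith
    calc ∑ m ∈ Ico M (2 * M), vonMangoldt m ^ 2 ≤ ∑ m ∈ Ico M (2 * M), (1 + Real.log M) * vonMangoldt m :=
          sum_le_sum h1
      _ = (1 + Real.log M) * ∑ m ∈ Ico M (2 * M), vonMangoldt m := by rw [mul_sum]
      _ ≤ (1 + Real.log M) * (12 * M) := mul_le_mul_of_nonneg_left h3 (by linarith)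
      _ ≤ 16 * M * (1 + Real.log M) := by nlinarith
  · intro K hK
    have hKr : (1 : ℝ) ≤ K := by exact_mod_cast hK
    have hL0 : 0 ≤ Real.log K := Real.log_nonneg hKr
    have h1 : ∑ k ∈ Ico K (2 * K), beta U k ^ 2 ≤ ∑ k ∈ Ioc 0 (2 * K), tau k ^ 2 := by
      calc ∑ k ∈ Ico K (2 * K), beta U k ^ 2 ≤ ∑ k ∈ Ico K (2 * K), tau k ^ 2 := by
            refine sum_le_sum fun k _ => ?_
            rw [← sq_abs]
            exact pow_le_pow_left₀ (abs_nonneg _) (COF_beta_le U k) 2
        _ ≤ ∑ k ∈ Ioc 0 (2 * K), tau k ^ 2 := by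
            apply sum_le_sum_of_subset_of_nonneg
            · intro m hm
              obtain ⟨hm1, hm2⟩ := mem_Ico.1 hm
              exact mem_Ioc.2 ⟨by omega, hm2.le⟩
            · intro m _ _
              positivity
    have h2 := Pool.Agent.helper85.BVP.sum_tau_sq_le (2 * K)
    have h3 : (1 + Real.log ((2 * K : ℕ) : ℝ)) ^ 3 ≤ (2 * (1 + Real.log K)) ^ 3 := by
      apply pow_le_pow_left₀
      · have := Real.log_natCast_nonneg (2 * K)
        linarith
      · have := COF_log2 K hK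
        linarith
    calc ∑ k ∈ Ico K (2 * K), beta U k ^ 2 ≤ ((2 * K : ℕ) : ℝ) * (1 + Real.log ((2 * K : ℕ) : ℝ)) ^ 3 := h1.trans h2
      _ ≤ ((2 * K : ℕ) : ℝ) * (2 * (1 + Real.log K)) ^ 3 := mul_le_mul_of_nonneg_left h3 (Nat.cast_nonneg _)
      _ = 16 * K * (1 + Real.log K) ^ 3 := by push_cast; ring

end Pool.Agent.SCT
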