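import Pool.Agent.helper94.SCT.Spec
import Pool.Agent.helper99.ED.RF
import Pool.Agent.helper85.ED.XR

set_option autoImplicit false

namespace Pool.Agent.SCT

open Finset ArithmeticFunction MeasureTheory
open Pool.Agent.CH (nit eU)
open Pool.Agent.helper78.ED (wg SS DK Dt)

private lemma KSS_sum (K : ℕ) : ∑ n ∈ Icc 1 K, (n : ℝ) ^ (-(1 / 2 : ℝ)) ≤ 2 * Real.sqrt K := by
  induction K with
  | zero => simp
  | succ K ih =>
    rw [Finset.sum_Icc_succ_top (by omega)]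
    have h0 : (0 : ℝ) ≤ K := Nat.cast_nonneg _
    have h1 : 0 < Real.sqrt ((K + 1 : ℕ) : ℝ) := Real.sqrt_pos.2 (by positivity)
    have h2 : Real.sqrt (K : ℝ) ≤ Real.sqrt ((K + 1 : ℕ) : ℝ) := Real.sqrt_le_sqrt (by push_cast; linarith)
    have h3 : (((K + 1 : ℕ) : ℝ)) ^ (-(1 / 2 : ℝ)) = 1 / Real.sqrt ((K + 1 : ℕ) : ℝ) := by
      rw [Real.rpow_neg (by positivity), Real.sqrt_eq_rpow, one_div, one_div]
    rw [h3]
    set a := Real.sqrt (K : ℝ) with ha
    set b := Real.sqrt ((K + 1 : ℕ) : ℝ) with hb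
    have ha2 : a ^ 2 = K := Real.sq_sqrt h0
    have hb2 : b ^ 2 = K + 1 := by
      rw [hb, Real.sq_sqrt (by positivity)]
      push_cast
      ring
    have ha0 : 0 ≤ a := Real.sqrt_nonneg _
    have h4 : 1 / b ≤ 2 * (b - a) := by
      rw [div_le_iff₀ h1]
      nlinarith
    linarith

private lemma KSS_DK (K : ℕ) (u : ℝ) : DK K u ≤ 2 * Real.sqrt K := by
  unfold DK
  refine (norm_sum_le _ _).trans (le_trans (sum_le_sum fun n hn => ?_) (KSS_sum K))
  have hn0 : 0 < n := (mem_Icc.1 hn).1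
  rw [Complex.norm_natCast_cpow_of_pos hn0]
  apply le_of_eq
  congr 1
  simp

private lemma KSS_Dt (K : ℕ) (V t : ℝ) (hV : 0 ≤ V) : Dt K V t ≤ 4 * Real.sqrt K := by
  unfold Dt
  have hc1 : Continuous fun v : ℝ => Real.exp (-v ^ 2) := by fun_prop
  have hc2 : Continuous fun v : ℝ => DK K (t + v) * Real.exp (-v ^ 2) :=
    (Pool.Agent.helper78.ED.RF_DK_cont K t).mul hc1
  have h1 : ∫ v in (-V)..V, DK K (t + v) * Real.exp (-v ^ 2) ≤
      ∫ v in (-V)..V, 2 * Real.sqrt K * Real.exp (-v ^ 2) := by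
    apply intervalIntegral.integral_mono_on (by linarith) (hc2.intervalIntegrable _ _)
      ((continuous_const.mul hc1).intervalIntegrable _ _)
    intro v _
    exact mul_le_mul_of_nonneg_right (KSS_DK K (t + v)) (Real.exp_pos _).le
  have h2 : ∫ v in (-V)..V, Real.exp (-v ^ 2) ≤ 2 := by
    have hint : Integrable fun v : ℝ => Real.exp (-v ^ 2) := by
      have := integrable_exp_neg_mul_sq (b := 1) one_pos
      simpa using this
    rw [intervalIntegral.integral_of_le (by linarith)]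
    have h3 : ∫ v in Set.Ioc (-V) V, Real.exp (-v ^ 2) ≤ ∫ v : ℝ, Real.exp (-v ^ 2) :=
      setIntegral_le_integral hint (Filter.Eventually.of_forall fun v => (Real.exp_pos _).le)
    have h4 : ∫ v : ℝ, Real.exp (-v ^ 2) = Real.sqrt Real.pi := by
      have := integral_gaussian 1
      simpa using this
    have h5 : Real.sqrt Real.pi ≤ 2 := by
      rw [show (2 : ℝ) = Real.sqrt 4 by
        rw [show (4 : ℝ) = 2 ^ 2 by norm_num, Real.sqrt_sq (by norm_num)]]
      exact Real.sqrt_le_sqrt Real.pi_le_four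
    linarith
  rw [intervalIntegral.integral_const_mul] at h1
  have h6 : 0 ≤ Real.sqrt (K : ℝ) := Real.sqrt_nonneg _
  nlinarith

theorem KSS : KSS_stmt := by
  intro ε hε hε1
  obtain ⟨k, hk⟩ := exists_nat_ge (1 + 1 / ε)
  have hk1 : (1 : ℝ) ≤ k := by
    have : 0 < 1 / ε := by positivity
    linarith
  have hkε : 1 ≤ ε * (k - 1) := by
    have h1 : 1 / ε ≤ k - 1 := by linarith
    calc (1 : ℝ) = ε * (1 / ε) := by field_simp
      _ ≤ ε * (k - 1) := mul_le_mul_of_nonneg_left h1 hε.le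
  obtain ⟨C, T₀, hC, h⟩ := Pool.Agent.helper78.ED.SS_refl_of k (by exact_mod_cast hk1)
    (Pool.Agent.helper78.ED.X_line k) (Pool.Agent.helper78.ED.X_strip k) (Pool.Agent.helper78.ED.zeta_strip k)
  refine ⟨6 * C, max T₀ 2, by positivity, ?_⟩
  intro T hT M τ hM hMT hτ1 hτ2
  have hT0 : T₀ ≤ T := (le_max_left _ _).trans hT
  have hT2 : (2 : ℝ) ≤ T := (le_max_right _ _).trans hT
  have hTp : 0 < T := by linarith
  have hT1 : 1 ≤ T := by linarith
  have hMp : 0 < M := by linarith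
  set Y : ℝ := T ^ (1 + ε) with hY
  have hYp : 0 < Y := by positivity
  have hY2 : Y ≤ T ^ 2 := by
    rw [hY, ← Real.rpow_natCast]
    exact Real.rpow_le_rpow_of_exponent_le hT1 (by push_cast; linarith)
  set K : ℕ := ⌈Y / M⌉₊ with hK
  have hK1 : 1 ≤ K := Nat.ceil_pos.2 (by positivity)
  have hKge : Y / M ≤ K := Nat.le_ceil _
  have hKle : (K : ℝ) ≤ Y / M + 1 := (Nat.ceil_lt_add_one (by positivity)).le
  have hYM : Y / M ≤ Y := div_le_self hYp.le hM
  have hK6 : (K : ℝ) ≤ T ^ (6 : ℕ) := by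
    have h1 : T ^ 2 + 1 ≤ T ^ (6 : ℕ) := by
      have h2 : (1 : ℝ) ≤ T ^ 2 := one_le_pow₀ hT1
      have h3 : (2 : ℝ) ≤ T ^ 4 := by
        calc (2 : ℝ) ≤ T := hT2
          _ = T ^ 1 := (pow_one T).symm
          _ ≤ T ^ 4 := pow_le_pow_right₀ hT1 (by norm_num)
      calc T ^ 2 + 1 ≤ T ^ 2 * 2 := by linarith
        _ ≤ T ^ 2 * T ^ 4 := mul_le_mul_of_nonneg_left h3 (by positivity)
        _ = T ^ (6 : ℕ) := by ring
    linarith
  have hM6 : M ≤ T ^ (6 : ℕ) := hMT.trans (pow_le_pow_right₀ hT1 (by norm_num))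
  have hMK1 : Y ≤ M * K := by
    have := mul_le_mul_of_nonneg_left hKge hMp.le
    rwa [mul_div_cancel₀ _ hMp.ne'] at this
  have hMK2 : M * K ≤ Y + M := by
    have := mul_le_mul_of_nonneg_left hKle hMp.le
    rw [mul_add, mul_div_cancel₀ _ hMp.ne', mul_one] at this
    exact this
  have hm := h T hT0 M 0 τ hM hM6 le_rfl zero_le_one hτ1 hτ2 K hK1 hK6
  have hA : T ^ k * (M * K) ^ (-((k : ℝ) - 1 / 2)) ≤ 1 := by
    have h1 : (M * K : ℝ) ^ (-((k : ℝ) - 1 / 2)) ≤ Y ^ (-((k : ℝ) - 1 / 2)) :=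
      Real.rpow_le_rpow_of_nonpos hYp hMK1 (by linarith)
    have h2 : Y ^ (-((k : ℝ) - 1 / 2)) ≤ T ^ (-(k : ℝ)) := by
      rw [hY, ← Real.rpow_mul hTp.le]
      apply Real.rpow_le_rpow_of_exponent_le hT1
      nlinarith
    calc T ^ k * (M * K) ^ (-((k : ℝ) - 1 / 2)) ≤ T ^ k * T ^ (-(k : ℝ)) :=
          mul_le_mul_of_nonneg_left (h1.trans h2) (by positivity)
      _ = 1 := by
          rw [← Real.rpow_natCast, ← Real.rpow_add hTp]
          simp
  have hB : M ^ (1 / 2 : ℝ) * Dt K (|τ| / 2) |τ| ≤ 4 * (M ^ (1 / 2 : ℝ) + T ^ (1 / 2 + ε)) := by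
    have h1 := KSS_Dt K (|τ| / 2) |τ| (by positivity)
    calc M ^ (1 / 2 : ℝ) * Dt K (|τ| / 2) |τ| ≤ M ^ (1 / 2 : ℝ) * (4 * Real.sqrt K) :=
          mul_le_mul_of_nonneg_left h1 (by positivity)
      _ = 4 * Real.sqrt (M * K) := by
          rw [Real.sqrt_mul hMp.le, Real.sqrt_eq_rpow, Real.sqrt_eq_rpow]
          ring
      _ ≤ 4 * (Real.sqrt M + Real.sqrt Y) := by
          apply mul_le_mul_of_nonneg_left _ (by norm_num)
          apply Real.sqrt_le_iff.2
          refine ⟨by positivity, ?_⟩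
          have h2 := Real.sq_sqrt hMp.le
          have h3 := Real.sq_sqrt hYp.le
          have h4 := Real.sqrt_nonneg M
          have h5 := Real.sqrt_nonneg Y
          nlinarith
      _ ≤ 4 * (M ^ (1 / 2 : ℝ) + T ^ (1 / 2 + ε)) := by
          apply mul_le_mul_of_nonneg_left _ (by norm_num)
          have h2 : Real.sqrt Y ≤ T ^ (1 / 2 + ε) := by
            rw [Real.sqrt_eq_rpow, hY, ← Real.rpow_mul hTp.le]
            apply Real.rpow_le_rpow_of_exponent_le hT1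
            linarith
          rw [Real.sqrt_eq_rpow M]
          linarith
  have hM1 : 1 ≤ M ^ (1 / 2 : ℝ) := Real.one_le_rpow hM (by norm_num)
  have hT3 : 0 ≤ T ^ (1 / 2 + ε) := by positivity
  calc ‖SS M 0 τ‖ ≤ C * (1 + T ^ k * (M * K) ^ (-((k : ℝ) - 1 / 2)) +
        M ^ (1 / 2 : ℝ) * Dt K (|τ| / 2) |τ|) := hm
    _ ≤ C * (6 * (M ^ (1 / 2 : ℝ) + T ^ (1 / 2 + ε))) := by
        apply mul_le_mul_of_nonneg_left _ hC.le
        linarith
    _ = 6 * C * (M ^ (1 / 2 : ℝ) + T ^ (1 / 2 + ε)) := by ring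

end Pool.Agent.SCT
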